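import Mathlib
import Pool.Agent.Lib.H79S.F1

/-!
# H42S: glue for the small transversal theorem with clique number 3 or stability number 3
-/

set_option autoImplicit false

namespace Pool.Agent.H42S

open Finset Pool.Agent.H79S

/-- the statement on one line without shared edges at one of its vertices -/
def LineST : Prop :=
  ∀ {V ι : Type} [Fintype V] [DecidableEq V] [Fintype ι] [DecidableEq ι] {al : ℕ}
    (P : PSys V ι al 3) (_ : 3 ≤ al) {t : ι} {a b c : V} (_ : P.K t = {a, b, c})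
    (_ : a ≠ b) (_ : a ≠ c) (_ : b ≠ c)
    (_ : ∀ m, a ∈ P.K m → b ∈ P.K m → m = t) (_ : ∀ m, a ∈ P.K m → c ∈ P.K m → m = t),
    ∃ T, P.IsST T

/-- every system has a small transversal -/
theorem st_all (hl : LineST) {V ι : Type} [Fintype V] [DecidableEq V] [Fintype ι] [DecidableEq ι]
    {al : ℕ} (P : PSys V ι al 3) (hal : 3 ≤ al) : ∃ T, P.IsST T := by
  by_cases hex : ∃ i j u v, i ≠ j ∧ u ≠ v ∧ u ∈ P.K i ∧ v ∈ P.K i ∧ u ∈ P.K j ∧ v ∈ P.K j
  · exact core P hal hex
  · have hun : ∀ (i j : ι) (u v : V), u ≠ v → u ∈ P.K i → v ∈ P.K i → u ∈ P.K j → v ∈ P.K j →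
        i = j := by
      intro i j u v huv h1 h2 h3 h4
      by_contra hne
      exact hex ⟨i, j, u, v, hne, huv, h1, h2, h3, h4⟩
    have hI : 0 < Fintype.card ι := by rw [P.cardI]; omega
    obtain ⟨t⟩ := Fintype.card_pos_iff.mp hI
    obtain ⟨a, b, c, hab, hac, hbc, ht⟩ := Finset.card_eq_three.mp (P.cardK t)
    have ha : a ∈ P.K t := by rw [ht]; simp
    have hb : b ∈ P.K t := by rw [ht]; simp
    have hc : c ∈ P.K t := by rw [ht]; simp
    exact hl P hal ht hab hac hbc (fun m h1 h2 => hun m t a b hab h1 h2 ha hb)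
      (fun m h1 h2 => hun m t a c hac h1 h2 ha hc)

/-- graphs with clique number 3 -/
theorem st_graph (hl : LineST) (V : Type) [Fintype V] (G : SimpleGraph V) (r s : ℕ)
    (h : Part V G r s) (h1 : 2 < Gᶜ.cliqueNum) (h3 : G.cliqueNum = 3) : HasST V G := by
  classical
  obtain ⟨e1, e2, hr, hs⟩ := nums G r s h.1 h.2 h1 (by omega)
  have hs3 : s = 3 := by omega
  subst hs3
  obtain ⟨ι, _, _, P, hK, hS, allK, allS⟩ := psys_of_part G r 3 hr (by omega) h
  obtain ⟨T, hT1, hT2, hT3⟩ := st_all hl P (by omega)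
  refine ⟨T, ?_, ?_, ?_⟩
  · rw [hT1, e1, e2]
  · intro Q hQ
    rw [e2] at hQ
    obtain ⟨i, rfl⟩ := allK Q hQ
    exact hT2 i
  · intro Q hQ
    rw [e1] at hQ
    obtain ⟨i, rfl⟩ := allS Q hQ
    exact hT3 i

end Pool.Agent.H42S
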