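import Pool.Agent.Lib.H42S.Loc

/-!
# H42S, lemma L1: if no maximum stable set meets `A_12` exactly in `w`, there is a small transversal
-/

set_option autoImplicit false

namespace Pool.Agent.H42S

open Finset Pool.Agent.H79S

variable {V ι : Type} [Fintype V] [DecidableEq V] [Fintype ι] [DecidableEq ι] {al : ℕ}
  {P : PSys V ι al 3} (L : LocC P)

theorem l1_T {t : ι} (hal : 2 ≤ al) (h1 : L.v12 ∈ P.K t) (h2 : L.w ∈ P.S t) {q r : V} (hq : q ∈ P.K L.q2)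
    (hqw : q ≠ L.w) (hr : r ∈ P.K L.q3) (hrw : r ≠ L.w) (hqv : L.v12 ≠ q) (hrv : L.v12 ≠ r)
    (hqr : q ≠ r) :
    (insert L.v12 (insert q (insert r ((P.S t).erase L.w)))).card = al + 3 - 1 ∧
      ∀ m, ¬ Disjoint (insert L.v12 (insert q (insert r ((P.S t).erase L.w)))) (P.K m) := by
  have hv : L.v12 ∉ P.S t := P.notS h1
  have hqt : q ∉ P.S t := L.out h2 L.w2 hq hqw
  have hrt : r ∉ P.S t := L.out h2 L.w3 hr hrw
  constructor
  · rw [Finset.card_insert_of_notMem, Finset.card_insert_of_notMem, Finset.card_insert_of_notMem,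
      Finset.card_erase_of_mem h2, P.cardS]
    · omega
    · simp [hrt]
    · simp [hqt, hqr]
    · simp [hv, hqv, hrv]
  · intro m hm
    rw [Finset.disjoint_left] at hm
    have hv' : L.v12 ∉ P.K m := fun h => hm (by simp) h
    have hq' : q ∉ P.K m := fun h => hm (by simp) h
    have hr' : r ∉ P.K m := fun h => hm (by simp) h
    have hmt : m ≠ t := fun h => hv' (h ▸ h1)
    obtain ⟨x, hx1, hx2⟩ := P.meet hmt
    by_cases hxw : x = L.w
    · rw [hxw] at hx1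
      rcases L.atw m hx1 with h | h | h
      · exact hv' (h ▸ L.k12)
      · exact hq' (h ▸ hq)
      · exact hr' (h ▸ hr)
    · exact hm (by simp [hxw, hx2]) hx1

/-- **Lemma L1.** -/
theorem LocC.st_iso (hal : 2 ≤ al) {t : ι} (h1 : L.v12 ∈ P.K t) (h2 : L.w ∈ P.S t)
    (hiso : ∀ m, L.w ∈ P.S m → ∃ x, x ∈ P.S m ∧ x ∈ P.S t ∧ x ≠ L.w) : ∃ T, P.IsST T := by
  have hq1t : L.q1 ≠ t := fun h => P.notS L.w1 (h ▸ h2)
  obtain ⟨t', nq1, ntt, hvt', hat⟩ := P.at3'' hq1t L.k12 h1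
  have hwt' : L.w ∉ P.K t' := fun h => nq1 (L.only12 h hvt').symm
  -- the class of `q3` meets `A`
  obtain ⟨c, hc1, hc2⟩ := P.meet (Ne.symm ntt)
  have hcw : c ≠ L.w := fun h => hwt' (h ▸ hc1)
  have hc3 : c ∈ P.S L.q3 := by
    rcases L.part hcw with h | h | h
    · exact absurd (P.eqi L.k12 h h1 hc2) hq1t
    · have h5 := P.eqv hc1 h hvt' L.m12
      rw [h5] at hc2
      exact absurd hc2 (P.notS h1)
    · exact h
  by_contra hno
  push Not at hno
  have hT1 := l1_T L hal h1 h2 L.k21 L.nw21 L.k32 L.nw32 L.ne12_21 L.c1 L.ne21_32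
  have hT2 := l1_T L hal h1 h2 L.k23 L.nw23 L.k31 L.nw31 L.ne12_23 L.ne12_31 L.ne23_31
  have hf : ∀ T : Finset V, (T.card = al + 3 - 1 ∧ ∀ m, ¬ Disjoint T (P.K m)) →
      ∃ m, Disjoint T (P.S m) := by
    intro T hT
    by_contra h
    push Not at h
    exact hno T ⟨hT.1, hT.2, h⟩
  obtain ⟨m, hm⟩ := hf _ hT1
  obtain ⟨m', hm'⟩ := hf _ hT2
  -- general facts
  have key : ∀ (q r : V) (m : ι),
      Disjoint (insert L.v12 (insert q (insert r ((P.S t).erase L.w)))) (P.S m) →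
      L.v12 ∉ P.S m ∧ q ∉ P.S m ∧ r ∉ P.S m ∧ (∀ x, x ∈ P.S t → x ∉ P.S m) ∧ L.w ∉ P.S m := by
    intro q r m hm
    rw [Finset.disjoint_left] at hm
    have e1 : ∀ x, x ∈ P.S t → x ≠ L.w → x ∉ P.S m := fun x hx hxw => hm (by simp [hxw, hx])
    have e2 : L.w ∉ P.S m := by
      intro h
      obtain ⟨x, hx1, hx2, hx3⟩ := hiso m h
      exact e1 x hx2 hx3 hx1
    refine ⟨hm (by simp), hm (by simp), hm (by simp), fun x hx => ?_, e2⟩
    by_cases hxw : x = L.w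
    · rw [hxw]; exact e2
    · exact e1 x hx hxw
  obtain ⟨a1, a2, a3, a4, a5⟩ := key _ _ m hm
  obtain ⟨b1, b2, b3, b4, b5⟩ := key _ _ m' hm'
  have nm2 : L.q2 ≠ m := fun h => a1 (h ▸ L.m12)
  have nm2' : L.q2 ≠ m' := fun h => b1 (h ▸ L.m12)
  have nm3 : L.q3 ≠ m := fun h => a4 c hc2 (h ▸ hc3)
  have nm3' : L.q3 ≠ m' := fun h => b4 c hc2 (h ▸ hc3)
  have third : ∀ (q : ι) (u v : V) (m : ι), P.K q = {L.w, u, v} → q ≠ m → L.w ∉ P.S m → u ∉ P.S m →
      v ∈ P.S m := by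
    intro q u v m hq hne hw hu
    obtain ⟨x, hx1, hx2⟩ := P.meet hne
    rw [hq] at hx1
    simp only [Finset.mem_insert, Finset.mem_singleton] at hx1
    rcases hx1 with h | h | h
    · exact absurd (h ▸ hx2) hw
    · exact absurd (h ▸ hx2) hu
    · exact h ▸ hx2
  have e23 : L.v23 ∈ P.S m := third _ _ _ m L.hq2 nm2 a5 a2
  have e31 : L.v31 ∈ P.S m := third L.q3 L.v32 L.v31 m (by rw [L.hq3, Finset.pair_comm]) nm3 a5 a3
  have hmm : m ≠ m' := fun h => b2 (h ▸ e23)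
  have cover : ∀ m, L.v12 ∉ P.S m → (∀ x, x ∈ P.S t → x ∉ P.S m) → ∀ x, x ∈ P.S m →
      x ∈ P.S L.q1 ∨ x ∈ P.S t' := by
    intro m h3 h4 x hx
    rcases part3 P hat (x := x) (fun h => h3 (h ▸ hx)) with h | h | h
    · exact Or.inl h
    · exact absurd hx (h4 x h)
    · exact Or.inr h
  have hsw := swap P hmm (P.S L.q1) (P.S t') (one_of_S P _) (one_of_S P _)
    (fun x hx _ => cover m a1 a4 x hx) (fun x hx _ => cover m' b1 b4 x hx)
    (fun x hx hx' => absurd (P.eqi L.k12 hx hvt' hx') nq1)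
  rcases hsw with h | h
  · exact L.d13 (h _ e23 b2) L.m23
  · exact nq1 (P.eqi L.k12 L.m31 hvt' (h _ e31 b3))

end Pool.Agent.H42S
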