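import Pool.Agent.Lib.H42S.Loc

/-!
# H42S, lemma L3: if `A_12` and `A_21` have only the vertex `w` in common, there is a small
transversal

`A = S t`, `A' = S s`, `v12 ∈ K t`, `v21 ∈ K s`, `w ∈ A ∩ A'`. The set `S*` of the vertices outside
`A ∪ A' ∪ {v12, v21}` has `al` elements; it misses exactly the third cliques `t'` at `v12` and `s'`
at `v21`. With `c ∈ K t' ∩ A`, `c' ∈ K t' ∩ A'`, `d ∈ K s' ∩ A'`, `d' ∈ K s' ∩ A` one of
`S* + c + d` and `S* + c' + d'` is a small transversal (swap lemma).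
-/

set_option autoImplicit false

namespace Pool.Agent.H42S

open Finset Pool.Agent.H79S

variable {V ι : Type} [Fintype V] [DecidableEq V] [Fintype ι] [DecidableEq ι] {al : ℕ}
  {P : PSys V ι al 3} (L : LocC P)

/-- **Lemma L3.** -/
theorem LocC.st_pair (hal : 2 ≤ al) {t s : ι} (h1 : L.v12 ∈ P.K t) (h2 : L.w ∈ P.S t)
    (h3 : L.v21 ∈ P.K s) (h4 : L.w ∈ P.S s) (hX : ∀ x, x ∈ P.S t → x ∈ P.S s → x = L.w) :
    ∃ T, P.IsST T := by
  have hq1t : L.q1 ≠ t := fun h => P.notS L.w1 (h ▸ h2)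
  have hq2s : L.q2 ≠ s := fun h => P.notS L.w2 (h ▸ h4)
  have hts : t ≠ s := by
    rintro rfl
    have h5 : (P.S t).card ≤ 1 := Finset.card_le_one.2 fun x hx y hy => by
      rw [hX x hx hx, hX y hy hy]
    rw [P.cardS] at h5
    omega
  obtain ⟨t', nq1, ntt, hvt', hat⟩ := P.at3'' hq1t L.k12 h1
  obtain ⟨s', nq2, nss, hvs', has⟩ := P.at3'' hq2s L.k21 h3
  have hwt' : L.w ∉ P.K t' := fun h => nq1 (L.only12 h hvt').symm
  have hws' : L.w ∉ P.K s' := fun h => nq2 (L.only21 h hvs').symm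
  have u12 : ∀ m, L.v12 ∈ P.K m → L.w ∈ P.S m → m = t := fun m h h' => P.eqi h h' h1 h2
  have u21 : ∀ m, L.v21 ∈ P.K m → L.w ∈ P.S m → m = s := fun m h h' => P.eqi h h' h3 h4
  have v21t : L.v21 ∉ P.K t := fun h => hts (u21 t h h2)
  have v12s : L.v12 ∉ P.K s := fun h => hts (u12 s h h4).symm
  have v12A : L.v12 ∉ P.S t := P.notS h1
  have v21A' : L.v21 ∉ P.S s := P.notS h3
  have v12A' : L.v12 ∉ P.S s := L.out h4 L.w1 L.k12 L.nw12
  have v21A : L.v21 ∉ P.S t := L.out h2 L.w2 L.k21 L.nw21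
  have nst' : t' ≠ s := fun h => v12s (h ▸ hvt')
  have nts' : s' ≠ t := fun h => v21t (h ▸ hvs')
  obtain ⟨c, hc1, hc2⟩ := P.meet (Ne.symm ntt)
  obtain ⟨c', hc'1, hc'2⟩ := P.meet nst'
  obtain ⟨d, hd1, hd2⟩ := P.meet (Ne.symm nss)
  obtain ⟨d', hd'1, hd'2⟩ := P.meet nts'
  have cw : c ≠ L.w := fun h => hwt' (h ▸ hc1)
  have c'w : c' ≠ L.w := fun h => hwt' (h ▸ hc'1)
  have dw : d ≠ L.w := fun h => hws' (h ▸ hd1)
  have d'w : d' ≠ L.w := fun h => hws' (h ▸ hd'1)
  have cA' : c ∉ P.S s := fun h => cw (hX c hc2 h)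
  have c'A : c' ∉ P.S t := fun h => c'w (hX c' h hc'2)
  have dA : d ∉ P.S t := fun h => dw (hX d h hd2)
  have d'A' : d' ∉ P.S s := fun h => d'w (hX d' hd'2 h)
  -- the set S*
  obtain ⟨B, hB⟩ : ∃ B : Finset V, ∀ x, x ∈ B ↔ x ∉ P.S t ∧ x ∉ P.S s ∧ x ≠ L.v12 ∧ x ≠ L.v21 :=
    ⟨univ.filter (fun x => x ∉ P.S t ∧ x ∉ P.S s ∧ x ≠ L.v12 ∧ x ≠ L.v21), fun x => by simp⟩
  have hBcard : B.card = al := by
    have e1 : B = univ \ (insert L.v12 (insert L.v21 (P.S t ∪ P.S s))) := by
      ext x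
      rw [hB]
      simp only [Finset.mem_sdiff, Finset.mem_univ, true_and, Finset.mem_insert, Finset.mem_union]
      tauto
    have e2 : (P.S t ∩ P.S s).card = 1 := by
      rw [Finset.card_eq_one]
      refine ⟨L.w, ?_⟩
      ext x
      rw [Finset.mem_inter, Finset.mem_singleton]
      exact ⟨fun h => hX x h.1 h.2, fun h => h ▸ ⟨h2, h4⟩⟩
    have e3 := Finset.card_union_add_card_inter (P.S t) (P.S s)
    rw [e2, P.cardS, P.cardS] at e3
    have e4 : (insert L.v12 (insert L.v21 (P.S t ∪ P.S s))).card = al + al + 1 := by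
      rw [Finset.card_insert_of_notMem, Finset.card_insert_of_notMem]
      · omega
      · simp [v21A, v21A']
      · simp [v12A, v12A', L.ne12_21]
    rw [e1, Finset.card_sdiff_of_subset (Finset.subset_univ _), Finset.card_univ, P.cardV, e4]
    omega
  -- transversals of the cliques
  have hT : ∀ x y, x ∈ P.K t' → y ∈ P.K s' → (x ∈ P.S t ∨ x ∈ P.S s) → (y ∈ P.S t ∨ y ∈ P.S s) →
      x ≠ y → (insert x (insert y B)).card = al + 3 - 1 ∧
        ∀ m, ¬ Disjoint (insert x (insert y B)) (P.K m) := by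
    intro x y hx hy hx' hy' hxy
    constructor
    · rw [Finset.card_insert_of_notMem, Finset.card_insert_of_notMem, hBcard]
      · omega
      · intro h
        rcases hy' with h' | h'
        · exact ((hB y).1 h).1 h'
        · exact ((hB y).1 h).2.1 h'
      · rw [Finset.mem_insert]
        rintro (h | h)
        · exact hxy h
        · rcases hx' with h' | h'
          · exact ((hB x).1 h).1 h'
          · exact ((hB x).1 h).2.1 h'
    · intro m hm
      rw [Finset.disjoint_left] at hm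
      have hxm : x ∉ P.K m := fun h => hm (by simp) h
      have hym : y ∉ P.K m := fun h => hm (by simp) h
      have hBm : ∀ z, z ∈ P.K m → z ∈ P.S t ∨ z ∈ P.S s ∨ z = L.v12 ∨ z = L.v21 := by
        intro z hz
        by_contra hcon
        push Not at hcon
        exact hm (by simp [(hB z).2 hcon]) hz
      -- neither v12 nor v21 is in K m
      have hv12 : L.v12 ∉ P.K m := by
        intro hv
        rcases hat m hv with h | h | h
        · -- q1
          have h5 := hBm L.v13 (h ▸ L.k13)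
          rcases h5 with h5 | h5 | h5 | h5
          · exact L.out h2 L.w1 L.k13 L.nw13 h5
          · exact L.out h4 L.w1 L.k13 L.nw13 h5
          · exact L.ne12_13 h5.symm
          · exact L.ne13_21 h5
        · -- t
          obtain ⟨y1, y2, n1, n2, n3, hK⟩ := P.two (i := m) hv
          have k1 : y1 ∈ P.K m := by rw [hK]; simp
          have k2 : y2 ∈ P.K m := by rw [hK]; simp
          have aux : ∀ z, z ∈ P.K m → L.v12 ≠ z → z ∈ P.S s := by
            intro z hz hne
            rcases hBm z hz with h5 | h5 | h5 | h5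
            · exact absurd h5 (P.notS (h ▸ hz))
            · exact h5
            · exact absurd h5.symm hne
            · exact absurd (h5 ▸ hz) (h ▸ v21t)
          exact n3 (P.eqv k1 (aux y1 k1 n1) k2 (aux y2 k2 n2))
        · exact hxm (h ▸ hx)
      have hv21 : L.v21 ∉ P.K m := by
        intro hv
        rcases has m hv with h | h | h
        · -- q2
          have h5 := hBm L.v23 (h ▸ L.k23)
          rcases h5 with h5 | h5 | h5 | h5
          · exact L.out h2 L.w2 L.k23 L.nw23 h5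
          · exact L.out h4 L.w2 L.k23 L.nw23 h5
          · exact L.ne12_23 h5.symm
          · exact L.ne21_23 h5.symm
        · -- s
          obtain ⟨y1, y2, n1, n2, n3, hK⟩ := P.two (i := m) hv
          have k1 : y1 ∈ P.K m := by rw [hK]; simp
          have k2 : y2 ∈ P.K m := by rw [hK]; simp
          have aux : ∀ z, z ∈ P.K m → L.v21 ≠ z → z ∈ P.S t := by
            intro z hz hne
            rcases hBm z hz with h5 | h5 | h5 | h5
            · exact h5
            · exact absurd h5 (P.notS (h ▸ hz))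
            · exact absurd (h5 ▸ hz) (h ▸ v12s)
            · exact absurd h5.symm hne
          exact n3 (P.eqv k1 (aux y1 k1 n1) k2 (aux y2 k2 n2))
        · exact hym (h ▸ hy)
      -- three vertices in two stable sets
      obtain ⟨z1, hz1⟩ : (P.K m).Nonempty := by
        rw [← Finset.card_pos, P.cardK]; omega
      obtain ⟨z2, z3, n1, n2, n3, hK⟩ := P.two hz1
      have k2 : z2 ∈ P.K m := by rw [hK]; simp
      have k3 : z3 ∈ P.K m := by rw [hK]; simp
      have aux : ∀ z, z ∈ P.K m → z ∈ P.S t ∨ z ∈ P.S s := by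
        intro z hz
        rcases hBm z hz with h5 | h5 | h5 | h5
        · exact Or.inl h5
        · exact Or.inr h5
        · exact absurd (h5 ▸ hz) hv12
        · exact absurd (h5 ▸ hz) hv21
      rcases aux z1 hz1 with a1 | a1 <;> rcases aux z2 k2 with a2 | a2 <;>
        rcases aux z3 k3 with a3 | a3
      · exact n1 (P.eqv hz1 a1 k2 a2)
      · exact n1 (P.eqv hz1 a1 k2 a2)
      · exact n2 (P.eqv hz1 a1 k3 a3)
      · exact n3 (P.eqv k2 a2 k3 a3)
      · exact n3 (P.eqv k2 a2 k3 a3)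
      · exact n2 (P.eqv hz1 a1 k3 a3)
      · exact n1 (P.eqv hz1 a1 k2 a2)
      · exact n1 (P.eqv hz1 a1 k2 a2)
  by_contra hno
  push Not at hno
  have hf : ∀ T : Finset V, (T.card = al + 3 - 1 ∧ ∀ m, ¬ Disjoint T (P.K m)) →
      ∃ m, Disjoint T (P.S m) := by
    intro T hT
    by_contra h
    push Not at h
    exact hno T ⟨hT.1, hT.2, h⟩
  have hcd : c ≠ d := fun h => dA (h ▸ hc2)
  have hcd' : c' ≠ d' := fun h => c'A (h ▸ hd'2)
  obtain ⟨m, hm⟩ := hf _ (hT c d hc1 hd1 (Or.inl hc2) (Or.inr hd2) hcd)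
  obtain ⟨m', hm'⟩ := hf _ (hT c' d' hc'1 hd'1 (Or.inr hc'2) (Or.inl hd'2) hcd')
  -- general facts
  have key : ∀ (x y : V) (m : ι), Disjoint (insert x (insert y B)) (P.S m) →
      x ∉ P.S m ∧ y ∉ P.S m ∧ L.w ∈ P.S m ∧ (∀ z, z ∈ P.S m → z ∈ P.S t ∨ z ∈ P.S s) := by
    intro x y m hm
    rw [Finset.disjoint_left] at hm
    have e0 : ∀ z, z ∉ P.S t → z ∉ P.S s → z ≠ L.v12 → z ≠ L.v21 → z ∉ P.S m :=
      fun z a1 a2 a3 a4 => hm (by simp [(hB z).2 ⟨a1, a2, a3, a4⟩])
    have e13 : L.v13 ∉ P.S m := e0 _ (L.out h2 L.w1 L.k13 L.nw13) (L.out h4 L.w1 L.k13 L.nw13)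
      L.ne12_13.symm L.ne13_21
    have e31 : L.v31 ∉ P.S m := e0 _ (L.out h2 L.w3 L.k31 L.nw31) (L.out h4 L.w3 L.k31 L.nw31)
      L.ne12_31.symm L.c3.symm
    have e32 : L.v32 ∉ P.S m := e0 _ (L.out h2 L.w3 L.k32 L.nw32) (L.out h4 L.w3 L.k32 L.nw32)
      L.c1.symm L.ne21_32.symm
    have nq3 : L.q3 ≠ m := fun h => e13 (h ▸ L.m13)
    have ew : L.w ∈ P.S m := by
      obtain ⟨z, hz1, hz2⟩ := P.meet nq3
      rw [L.hq3] at hz1
      simp only [Finset.mem_insert, Finset.mem_singleton] at hz1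
      rcases hz1 with h | h | h
      · exact h ▸ hz2
      · exact absurd (h ▸ hz2) e31
      · exact absurd (h ▸ hz2) e32
    refine ⟨hm (by simp), hm (by simp), ew, fun z hz => ?_⟩
    by_contra hcon
    push Not at hcon
    exact e0 z hcon.1 hcon.2 (fun h => L.out ew L.w1 L.k12 L.nw12 (h ▸ hz))
      (fun h => L.out ew L.w2 L.k21 L.nw21 (h ▸ hz)) hz
  obtain ⟨a1, a2, a3, a4⟩ := key _ _ m hm
  obtain ⟨b1, b2, b3, b4⟩ := key _ _ m' hm'
  have tm : ∀ m, L.w ∈ P.S m → t' ≠ m := by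
    rintro m hw rfl
    exact ntt (u12 _ hvt' hw).symm
  have sm : ∀ m, L.w ∈ P.S m → s' ≠ m := by
    rintro m hw rfl
    exact nss (u21 _ hvs' hw).symm
  -- the members of the cliques t', s'
  have get : ∀ (r : ι) (v x y : V) (m : ι), v ∈ P.K r → x ∈ P.K r → y ∈ P.K r → v ≠ x → v ≠ y →
      x ≠ y → r ≠ m → v ∉ P.S m → x ∉ P.S m → y ∈ P.S m := by
    intro r v x y m hv hx hy n1 n2 n3 hne hvm hxm
    have hK : P.K r = {v, x, y} := by
      symm
      apply Finset.eq_of_subset_of_card_le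
      · intro z hz
        simp only [Finset.mem_insert, Finset.mem_singleton] at hz
        rcases hz with rfl | rfl | rfl
        · exact hv
        · exact hx
        · exact hy
      · rw [P.cardK, Finset.card_insert_of_notMem (by simp [n1, n2]),
          Finset.card_insert_of_notMem (by simp [n3]), Finset.card_singleton]
    obtain ⟨z, hz1, hz2⟩ := P.meet hne
    rw [hK] at hz1
    simp only [Finset.mem_insert, Finset.mem_singleton] at hz1
    rcases hz1 with h | h | h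
    · exact absurd (h ▸ hz2) hvm
    · exact absurd (h ▸ hz2) hxm
    · exact h ▸ hz2
  have vc : L.v12 ≠ c := fun h => v12A (h ▸ hc2)
  have vc' : L.v12 ≠ c' := fun h => v12A' (h ▸ hc'2)
  have vd : L.v21 ≠ d := fun h => v21A' (h ▸ hd2)
  have vd' : L.v21 ≠ d' := fun h => v21A (h ▸ hd'2)
  have cc : c ≠ c' := fun h => c'A (h ▸ hc2)
  have dd : d ≠ d' := fun h => dA (h ▸ hd'2)
  have v12m : L.v12 ∉ P.S m := L.out a3 L.w1 L.k12 L.nw12
  have v21m : L.v21 ∉ P.S m := L.out a3 L.w2 L.k21 L.nw21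
  have e1 : c' ∈ P.S m := get t' L.v12 c c' m hvt' hc1 hc'1 vc vc' cc (tm m a3) v12m a1
  have e2 : d' ∈ P.S m := get s' L.v21 d d' m hvs' hd1 hd'1 vd vd' dd (sm m a3) v21m a2
  have hmm : m ≠ m' := fun h => b1 (h ▸ e1)
  have hsw := swap P hmm (P.S t) (P.S s) (one_of_S P _) (one_of_S P _)
    (fun x hx _ => a4 x hx) (fun x hx _ => b4 x hx)
    (fun x hx hx' => by rw [hX x hx hx']; exact ⟨fun _ => b3, fun _ => a3⟩)
  rcases hsw with h | h
  · exact c'A (h _ e1 b1)
  · exact d'A' (h _ e2 b2)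

end Pool.Agent.H42S
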