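import Pool.Agent.Lib.H42S.SW

/-!
# H42S: a vertex whose three cliques pairwise share only this vertex (local data, clique number 3)
-/

set_option autoImplicit false

namespace Pool.Agent.H42S

open Finset Pool.Agent.H79S

variable {V ι : Type} [Fintype V] [DecidableEq V] [Fintype ι] [DecidableEq ι] {al : ℕ}

/-- The three cliques `q1, q2, q3` through `w`; `v i j` is the vertex of the clique `q i` in the
stable set `S (q j)`; the three cliques pairwise share only `w`. -/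
structure LocC (P : PSys V ι al 3) where
  (w v12 v13 v21 v23 v31 v32 : V)
  (q1 q2 q3 : ι)
  hq1 : P.K q1 = {w, v12, v13}
  hq2 : P.K q2 = {w, v21, v23}
  hq3 : P.K q3 = {w, v31, v32}
  n12 : q1 ≠ q2
  n13 : q1 ≠ q3
  n23 : q2 ≠ q3
  atw : ∀ m, w ∈ P.K m → m = q1 ∨ m = q2 ∨ m = q3
  m12 : v12 ∈ P.S q2
  m13 : v13 ∈ P.S q3
  m21 : v21 ∈ P.S q1
  m23 : v23 ∈ P.S q3
  m31 : v31 ∈ P.S q1
  m32 : v32 ∈ P.S q2
  c1 : v12 ≠ v32
  c2 : v13 ≠ v23
  c3 : v21 ≠ v31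

namespace LocC

variable {P : PSys V ι al 3} (L : LocC P)

/-- exchange the roles of 2 and 3 -/
def sw23 : LocC P where
  w := L.w
  v12 := L.v13
  v13 := L.v12
  v21 := L.v31
  v23 := L.v32
  v31 := L.v21
  v32 := L.v23
  q1 := L.q1
  q2 := L.q3
  q3 := L.q2
  hq1 := by rw [L.hq1, Finset.pair_comm]
  hq2 := L.hq3
  hq3 := L.hq2
  n12 := L.n13
  n13 := L.n12
  n23 := L.n23.symm
  atw := fun m hm => by
    rcases L.atw m hm with h | h | h
    · exact Or.inl h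
    · exact Or.inr (Or.inr h)
    · exact Or.inr (Or.inl h)
  m12 := L.m13
  m13 := L.m12
  m21 := L.m31
  m23 := L.m32
  m31 := L.m21
  m32 := L.m23
  c1 := L.c2
  c2 := L.c1
  c3 := L.c3.symm

/-- exchange the roles of 1 and 2 -/
def sw12 : LocC P where
  w := L.w
  v12 := L.v21
  v13 := L.v23
  v21 := L.v12
  v23 := L.v13
  v31 := L.v32
  v32 := L.v31
  q1 := L.q2
  q2 := L.q1
  q3 := L.q3
  hq1 := L.hq2
  hq2 := L.hq1
  hq3 := by rw [L.hq3, Finset.pair_comm]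
  n12 := L.n12.symm
  n13 := L.n23
  n23 := L.n13
  atw := fun m hm => by
    rcases L.atw m hm with h | h | h
    · exact Or.inr (Or.inl h)
    · exact Or.inl h
    · exact Or.inr (Or.inr h)
  m12 := L.m21
  m13 := L.m23
  m21 := L.m12
  m23 := L.m13
  m31 := L.m32
  m32 := L.m31
  c1 := L.c3
  c2 := L.c2.symm
  c3 := L.c1

theorem w1 : L.w ∈ P.K L.q1 := by rw [L.hq1]; simp
theorem w2 : L.w ∈ P.K L.q2 := by rw [L.hq2]; simp
theorem w3 : L.w ∈ P.K L.q3 := by rw [L.hq3]; simp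
theorem k12 : L.v12 ∈ P.K L.q1 := by rw [L.hq1]; simp
theorem k13 : L.v13 ∈ P.K L.q1 := by rw [L.hq1]; simp
theorem k21 : L.v21 ∈ P.K L.q2 := by rw [L.hq2]; simp
theorem k23 : L.v23 ∈ P.K L.q2 := by rw [L.hq2]; simp
theorem k31 : L.v31 ∈ P.K L.q3 := by rw [L.hq3]; simp
theorem k32 : L.v32 ∈ P.K L.q3 := by rw [L.hq3]; simp

/-- the classes at `w` are disjoint -/
theorem d12 {x : V} (h1 : x ∈ P.S L.q1) (h2 : x ∈ P.S L.q2) : False := L.n12 (P.eqi L.w1 h1 L.w2 h2)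
theorem d13 {x : V} (h1 : x ∈ P.S L.q1) (h2 : x ∈ P.S L.q3) : False := L.n13 (P.eqi L.w1 h1 L.w3 h2)
theorem d23 {x : V} (h1 : x ∈ P.S L.q2) (h2 : x ∈ P.S L.q3) : False := L.n23 (P.eqi L.w2 h1 L.w3 h2)

/-- the classes at `w` cover all other vertices -/
theorem part {x : V} (hx : x ≠ L.w) : x ∈ P.S L.q1 ∨ x ∈ P.S L.q2 ∨ x ∈ P.S L.q3 := by
  obtain ⟨i, hi1, hi2⟩ := P.exKS (u := L.w) (v := x) (Ne.symm hx)
  rcases L.atw i hi1 with rfl | rfl | rfl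
  · exact Or.inl hi2
  · exact Or.inr (Or.inl hi2)
  · exact Or.inr (Or.inr hi2)

theorem nw12 : L.v12 ≠ L.w := (P.ne_of_KS L.w2 L.m12).symm
theorem nw13 : L.v13 ≠ L.w := (P.ne_of_KS L.w3 L.m13).symm
theorem nw21 : L.v21 ≠ L.w := (P.ne_of_KS L.w1 L.m21).symm
theorem nw23 : L.v23 ≠ L.w := (P.ne_of_KS L.w3 L.m23).symm
theorem nw31 : L.v31 ≠ L.w := (P.ne_of_KS L.w1 L.m31).symm
theorem nw32 : L.v32 ≠ L.w := (P.ne_of_KS L.w2 L.m32).symm

theorem ne12_21 : L.v12 ≠ L.v21 := fun h => L.d12 (h ▸ L.m21) L.m12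
theorem ne12_23 : L.v12 ≠ L.v23 := fun h => L.d23 L.m12 (h ▸ L.m23)
theorem ne12_31 : L.v12 ≠ L.v31 := fun h => L.d12 (h ▸ L.m31) L.m12
theorem ne12_13 : L.v12 ≠ L.v13 := fun h => L.d23 L.m12 (h ▸ L.m13)
theorem ne21_23 : L.v21 ≠ L.v23 := fun h => L.d13 L.m21 (h ▸ L.m23)
theorem ne21_32 : L.v21 ≠ L.v32 := fun h => L.d12 L.m21 (h ▸ L.m32)
theorem ne23_31 : L.v23 ≠ L.v31 := fun h => L.d13 (h ▸ L.m31) L.m23
theorem ne31_32 : L.v31 ≠ L.v32 := fun h => L.d12 L.m31 (h ▸ L.m32)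
theorem ne13_21 : L.v13 ≠ L.v21 := fun h => L.d13 (h ▸ L.m21) L.m13
theorem ne13_31 : L.v13 ≠ L.v31 := fun h => L.d13 (h ▸ L.m31) L.m13

/-- `w` in `S t` excludes the other vertices of the cliques through `w` -/
theorem out {t : ι} (ht : L.w ∈ P.S t) {q : ι} (hq : L.w ∈ P.K q) {x : V} (hx : x ∈ P.K q)
    (hxw : x ≠ L.w) : x ∉ P.S t := fun h => hxw (P.eqv hx h hq ht)

/-- the only clique through `w` and `v12` is `q1` -/
theorem only12 {m : ι} (h1 : L.w ∈ P.K m) (h2 : L.v12 ∈ P.K m) : m = L.q1 := by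
  rcases L.atw m h1 with h | h | h
  · exact h
  · exact absurd L.m12 (P.notS (h ▸ h2))
  · exfalso
    rw [h, L.hq3] at h2
    simp only [Finset.mem_insert, Finset.mem_singleton] at h2
    rcases h2 with h3 | h3 | h3
    · exact L.nw12 h3
    · exact L.ne12_31 h3
    · exact L.c1 h3

theorem only21 {m : ι} (h1 : L.w ∈ P.K m) (h2 : L.v21 ∈ P.K m) : m = L.q2 := L.sw12.only12 h1 h2

end LocC

/-- the mates of the cliques at a vertex cover all other vertices -/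
theorem part3 (P : PSys V ι al 3) {v : V} {i j l : ι} (h : ∀ m, v ∈ P.K m → m = i ∨ m = j ∨ m = l)
    {x : V} (hx : x ≠ v) : x ∈ P.S i ∨ x ∈ P.S j ∨ x ∈ P.S l := by
  obtain ⟨m, hm1, hm2⟩ := P.exKS (u := v) (v := x) (Ne.symm hx)
  rcases h m hm1 with rfl | rfl | rfl
  · exact Or.inl hm2
  · exact Or.inr (Or.inl hm2)
  · exact Or.inr (Or.inr hm2)

/-- the mate of a clique meets every clique at most once -/
theorem one_of_S (P : PSys V ι al 3) (i : ι) : ∀ m x y, x ∈ P.K m → y ∈ P.K m → x ∈ P.S i →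
    y ∈ P.S i → x = y := fun _ _ _ h1 h2 h3 h4 => P.eqv h1 h3 h2 h4

end Pool.Agent.H42S
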