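import Pool.Agent.Lib.H79S.Loc

/-!
# H42S: the swap lemma

For two different maximum stable sets `S i`, `S j` the graph formed by the cliques meeting them in
different vertices is connected and bipartite, so it has only one proper colouring with two
colours: if `X`, `Y` are sets meeting every clique at most once and the symmetric difference of
`S i` and `S j` is the disjoint union of its intersections with `X` and `Y`, then `S i \ S j` is
contained in `X` or in `Y`.
-/

set_option autoImplicit false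

namespace Pool.Agent.H42S

open Finset Pool.Agent.H79S

variable {V ι : Type} [Fintype V] [DecidableEq V] [Fintype ι] [DecidableEq ι] {al : ℕ}

/-- one common vertex -/
theorem card_one_of {K B : Finset V} {x : V} (h1 : x ∈ K) (h2 : x ∈ B)
    (h3 : ∀ z ∈ K, z ∈ B → z = x) : (K ∩ B).card = 1 := by
  rw [Finset.card_eq_one]
  refine ⟨x, ?_⟩
  ext z
  rw [Finset.mem_inter, Finset.mem_singleton]
  constructor
  · rintro ⟨h4, h5⟩
    exact h3 z h4 h5
  · rintro rfl
    exact ⟨h1, h2⟩

theorem card_zero_of {K B : Finset V} (h3 : ∀ z ∈ K, z ∉ B) : (K ∩ B).card = 0 := by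
  rw [Finset.card_eq_zero]
  apply Finset.eq_empty_of_forall_notMem
  intro z hz
  rw [Finset.mem_inter] at hz
  exact h3 z hz.1 hz.2

theorem swap (P : PSys V ι al 3) {i j : ι} (hij : i ≠ j) (X Y : Finset V)
    (hX : ∀ m x y, x ∈ P.K m → y ∈ P.K m → x ∈ X → y ∈ X → x = y)
    (hY : ∀ m x y, x ∈ P.K m → y ∈ P.K m → x ∈ Y → y ∈ Y → x = y)
    (hc : ∀ x, x ∈ P.S i → x ∉ P.S j → x ∈ X ∨ x ∈ Y)
    (hc' : ∀ x, x ∈ P.S j → x ∉ P.S i → x ∈ X ∨ x ∈ Y)
    (hd : ∀ x, x ∈ X → x ∈ Y → (x ∈ P.S i ↔ x ∈ P.S j)) :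
    (∀ x, x ∈ P.S i → x ∉ P.S j → x ∈ X) ∨ (∀ x, x ∈ P.S i → x ∉ P.S j → x ∈ Y) := by
  classical
  obtain ⟨B, hB⟩ : ∃ B : Finset V, ∀ x, x ∈ B ↔ (x ∈ P.S i ∧ x ∈ P.S j) ∨
      (x ∈ P.S i ∧ x ∉ P.S j ∧ x ∈ Y) ∨ (x ∈ P.S j ∧ x ∉ P.S i ∧ x ∈ Y) :=
    ⟨univ.filter (fun x => (x ∈ P.S i ∧ x ∈ P.S j) ∨
      (x ∈ P.S i ∧ x ∉ P.S j ∧ x ∈ Y) ∨ (x ∈ P.S j ∧ x ∉ P.S i ∧ x ∈ Y)), fun x => by simp⟩
  obtain ⟨y, hyK, hyS⟩ := P.meet hij
  obtain ⟨x, hxK, hxS⟩ := P.meet (Ne.symm hij)
  have hyi : y ∉ P.S i := P.notS hyK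
  have hxj : x ∉ P.S j := P.notS hxK
  have hKi : ((P.K i ∩ B).card : ℤ) = 1 + (if y ∈ Y then 0 else -1) := by
    by_cases hy : y ∈ Y
    · rw [if_pos hy, card_one_of hyK ((hB y).2 (Or.inr (Or.inr ⟨hyS, hyi, hy⟩)))]
      · norm_num
      · intro z hz hzB
        rcases (hB z).1 hzB with h | h | h
        · exact absurd h.1 (P.notS hz)
        · exact absurd h.1 (P.notS hz)
        · exact P.eqv hz h.1 hyK hyS
    · rw [if_neg hy, card_zero_of]
      · norm_num
      · intro z hz hzB
        rcases (hB z).1 hzB with h | h | h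
        · exact absurd h.1 (P.notS hz)
        · exact absurd h.1 (P.notS hz)
        · rw [P.eqv hz h.1 hyK hyS] at h
          exact hy h.2.2
  have hKj : ((P.K j ∩ B).card : ℤ) = 1 + (if x ∈ Y then 0 else -1) := by
    by_cases hx : x ∈ Y
    · rw [if_pos hx, card_one_of hxK ((hB x).2 (Or.inr (Or.inl ⟨hxS, hxj, hx⟩)))]
      · norm_num
      · intro z hz hzB
        rcases (hB z).1 hzB with h | h | h
        · exact absurd h.2 (P.notS hz)
        · exact P.eqv hz h.1 hxK hxS
        · exact absurd h.1 (P.notS hz)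
    · rw [if_neg hx, card_zero_of]
      · norm_num
      · intro z hz hzB
        rcases (hB z).1 hzB with h | h | h
        · exact absurd h.2 (P.notS hz)
        · rw [P.eqv hz h.1 hxK hxS] at h
          exact hx h.2.2
        · exact absurd h.1 (P.notS hz)
  have hK : ∀ m, m ≠ i → m ≠ j → ((P.K m ∩ B).card : ℤ) = 1 := by
    intro m hmi hmj
    obtain ⟨s, hsK, hsS⟩ := P.meet hmi
    obtain ⟨t, htK, htS⟩ := P.meet hmj
    by_cases hst : s = t
    · subst hst
      rw [card_one_of hsK ((hB s).2 (Or.inl ⟨hsS, htS⟩))]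
      · norm_num
      · intro z hz hzB
        rcases (hB z).1 hzB with h | h | h
        · exact P.eqv hz h.1 hsK hsS
        · exact P.eqv hz h.1 hsK hsS
        · exact P.eqv hz h.1 htK htS
    · have hsj : s ∉ P.S j := fun h => hst (P.eqv hsK h htK htS)
      have hti : t ∉ P.S i := fun h => hst (P.eqv hsK hsS htK h)
      by_cases hsY : s ∈ Y
      · rw [card_one_of hsK ((hB s).2 (Or.inr (Or.inl ⟨hsS, hsj, hsY⟩)))]
        · norm_num
        · intro z hz hzB
          rcases (hB z).1 hzB with h | h | h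
          · exact P.eqv hz h.1 hsK hsS
          · exact P.eqv hz h.1 hsK hsS
          · exact hY m z s hz hsK h.2.2 hsY
      · have hsX : s ∈ X := (hc s hsS hsj).resolve_right hsY
        have htY : t ∈ Y := by
          rcases hc' t htS hti with h | h
          · exact absurd (hX m s t hsK htK hsX h) hst
          · exact h
        rw [card_one_of htK ((hB t).2 (Or.inr (Or.inr ⟨htS, hti, htY⟩)))]
        · norm_num
        · intro z hz hzB
          rcases (hB z).1 hzB with h | h | h
          · exact P.eqv hz h.2 htK htS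
          · exact absurd (P.eqv hz h.1 hsK hsS ▸ h.2.2) hsY
          · exact P.eqv hz h.1 htK htS
  obtain ⟨h1, h2⟩ := P.recon B (fun m => (if m = i then (if y ∈ Y then 0 else -1) else 0) +
      (if m = j then (if x ∈ Y then 0 else -1) else 0)) (by
    intro m
    by_cases hmi : m = i
    · subst hmi
      rw [hKi, if_pos rfl, if_neg hij, add_zero]
    · by_cases hmj : m = j
      · subst hmj
        rw [hKj, if_pos rfl, if_neg hmi, zero_add]
      · rw [hK m hmi hmj, if_neg hmi, if_neg hmj]
        norm_num)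
  rw [Finset.sum_add_distrib, Finset.sum_ite_eq' univ i, Finset.sum_ite_eq' univ j,
    if_pos (mem_univ _), if_pos (mem_univ _)] at h1
  have hsum : ∀ v, ∑ m ∈ univ.filter (fun m => v ∈ P.S m),
      ((if m = i then (if y ∈ Y then (0 : ℤ) else -1) else 0) +
      (if m = j then (if x ∈ Y then (0 : ℤ) else -1) else 0)) =
      (if v ∈ P.S i then (if y ∈ Y then (0 : ℤ) else -1) else 0) +
      (if v ∈ P.S j then (if x ∈ Y then (0 : ℤ) else -1) else 0) := by
    intro v
    rw [Finset.sum_add_distrib, Finset.sum_ite_eq', Finset.sum_ite_eq']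
    simp only [Finset.mem_filter, Finset.mem_univ, true_and]
  by_cases hy : y ∈ Y
  · by_cases hx : x ∈ Y
    · rw [if_pos hy, if_pos hx] at h1
      push_cast at h1
      omega
    · -- B = S j
      left
      intro s hsi hsj
      rw [if_pos hy, if_neg hx] at h1
      push_cast at h1
      have hcard : (B.card : ℤ) - al = 0 := by omega
      have h3 := h2 s
      rw [hsum s, if_neg hsj, if_pos hsi, if_pos hy, hcard] at h3
      have hsB : s ∉ B := by
        intro h
        rw [if_pos h] at h3
        norm_num at h3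
      rcases hc s hsi hsj with h | h
      · exact h
      · exact absurd ((hB s).2 (Or.inr (Or.inl ⟨hsi, hsj, h⟩))) hsB
  · by_cases hx : x ∈ Y
    · right
      intro s hsi hsj
      rw [if_neg hy, if_pos hx] at h1
      push_cast at h1
      have hcard : (B.card : ℤ) - al = 0 := by omega
      have h3 := h2 s
      rw [hsum s, if_neg hsj, if_pos hsi, if_neg hy, hcard] at h3
      have hsB : s ∈ B := by
        by_contra h
        rw [if_neg h] at h3
        norm_num at h3
      rcases (hB s).1 hsB with h | h | h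
      · exact absurd h.2 hsj
      · exact h.2.2
      · exact absurd h.1 hsj
    · rw [if_neg hy, if_neg hx] at h1
      push_cast at h1
      omega

end Pool.Agent.H42S
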